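import Pool.Agent.KTB.StmtsKD
import Pool.Agent.Helper92_KTB.KPM

/-!
# Squad KTB, row KPN: isolation for sets of monomials
-/

set_option autoImplicit false

namespace Pool.Agent.KTB.H92

open Finset Pool.Agent.KTB
open scoped Classical

variable {σ : Type} [Fintype σ]

theorem kpn (kia : KiaStmt) (kvk : KvkStmt) : KpnStmt := by
  intro σ _ I T c hc
  obtain ⟨D, hD⟩ : ∃ D : Dat I T, D = dat I T c hc := ⟨_, rfl⟩
  have hx : ∀ (j : T) (a : I), D.x j a = (a : σ →₀ ℕ) j := by
    intro j a; rw [hD]; rfl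
  have hrel : ∀ ρ : I → ℚ, ρ ∈ D.rel ↔ ∀ i : σ, ∑ a : I, ρ a * (((a : σ →₀ ℕ) i : ℕ) : ℚ) = 0 := by
    intro ρ; rw [hD]; rfl
  have hl0 : ∀ a : I, D.l0 a = c a := by
    intro a; rw [hD]; rfl
  rcases kia I T D with ⟨S, hLL, hS⟩ | ⟨K, hK0, hK1, hK2, hK3, hK4⟩
  · left
    obtain ⟨⟨l, hl, hl'⟩, hpriv⟩ := hLL
    refine ⟨S.map (Function.Embedding.subtype _), fun α => if h : α ∈ I then l ⟨α, h⟩ else 0,
      ?_, ?_, ?_, ?_⟩
    · intro α hα
      obtain ⟨a, -, rfl⟩ := Finset.mem_map.1 hα
      exact a.2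
    · intro t ht
      have hbot : D.R S = ⊥ := Submodule.finrank_eq_zero.1 hS
      obtain ⟨ρ, hρ⟩ : ∃ ρ : I → ℚ, ∀ a, ρ a =
          if h : (a : σ →₀ ℕ) ∈ S.map (Function.Embedding.subtype _) then t ⟨a, h⟩ else 0 :=
        ⟨_, fun _ => rfl⟩
      have hmem : ∀ a : I, (a : σ →₀ ℕ) ∈ S.map (Function.Embedding.subtype _) ↔ a ∈ S := by
        intro a
        constructor
        · intro h
          obtain ⟨b, hb, hb'⟩ := Finset.mem_map.1 h
          have : b = a := Subtype.ext hb'
          rwa [← this]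
        · intro h
          exact Finset.mem_map.2 ⟨a, h, rfl⟩
      have hρR : ρ ∈ D.R S := by
        refine ⟨?_, fun a ha => ?_⟩
        · rw [hrel]
          intro i
          have h2 := ht i
          have h3 : ∑ a : I, ρ a * (((a : σ →₀ ℕ) i : ℕ) : ℚ) =
              ∑ a ∈ S, ρ a * (((a : σ →₀ ℕ) i : ℕ) : ℚ) := by
            symm
            apply Finset.sum_subset (Finset.subset_univ S)
            intro a _ ha
            rw [hρ, dif_neg (fun h => ha ((hmem a).1 h)), zero_mul]
          have h4 : ∑ α : (S.map (Function.Embedding.subtype _) : Finset (σ →₀ ℕ)),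
              t α * (((α : σ →₀ ℕ) i : ℕ) : ℚ) =
              ∑ α ∈ S.map (Function.Embedding.subtype _),
                (if h : α ∈ S.map (Function.Embedding.subtype _) then t ⟨α, h⟩ else 0) *
                  ((α i : ℕ) : ℚ) := by
            rw [← Finset.sum_coe_sort (S.map (Function.Embedding.subtype _)) (fun α =>
              (if h : α ∈ S.map (Function.Embedding.subtype _) then t ⟨α, h⟩ else 0) *
                ((α i : ℕ) : ℚ))]
            refine Finset.sum_congr rfl fun α _ => ?_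
            rw [dif_pos α.2]
          rw [h4, Finset.sum_map] at h2
          rw [h3, ← h2]
          refine Finset.sum_congr rfl fun a _ => ?_
          rw [hρ]
          rfl
        · rw [hρ, dif_neg (fun h => ha ((hmem a).1 h))]
      rw [hbot, Submodule.mem_bot] at hρR
      funext α
      obtain ⟨a, ha, ha'⟩ := Finset.mem_map.1 α.2
      have h5 := congrFun hρR a
      have h6 : (a : σ →₀ ℕ) ∈ S.map (Function.Embedding.subtype _) := (hmem a).2 ha
      rw [hρ, dif_pos h6] at h5
      have h7 : α = ⟨(a : σ →₀ ℕ), h6⟩ := Subtype.ext ha'.symm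
      rw [h7, h5]
      rfl
    · intro j hj
      rw [Finset.sum_map]
      have h1 : ∑ a ∈ S, l a * (((a : σ →₀ ℕ) j : ℕ) : ℚ) = 1 := by
        have h2 : ∑ a ∈ S, l a * (((a : σ →₀ ℕ) j : ℕ) : ℚ) =
            ∑ a : I, l a * (((a : σ →₀ ℕ) j : ℕ) : ℚ) := by
          apply Finset.sum_subset (Finset.subset_univ S)
          intro a _ ha
          rw [hl' a ha, zero_mul]
        rw [h2]
        have h3 := (hrel _).1 hl j
        have h4 : ∑ a : I, c a * (((a : σ →₀ ℕ) j : ℕ) : ℚ) = 1 := by
          rw [Finset.sum_coe_sort I (fun α => c α * ((α j : ℕ) : ℚ))]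
          exact hc j hj
        have h5 : ∑ a : I, (l - D.l0) a * (((a : σ →₀ ℕ) j : ℕ) : ℚ) =
            ∑ a : I, l a * (((a : σ →₀ ℕ) j : ℕ) : ℚ) -
              ∑ a : I, c a * (((a : σ →₀ ℕ) j : ℕ) : ℚ) := by
          rw [← Finset.sum_sub_distrib]
          refine Finset.sum_congr rfl fun a _ => ?_
          rw [Pi.sub_apply, hl0]
          ring
        rw [h5, h4] at h3
        linarith
      rw [← h1]
      refine Finset.sum_congr rfl fun a _ => ?_
      have h8 : (Function.Embedding.subtype _ a : σ →₀ ℕ) ∈ I := a.2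
      have h9 : (fun α => if h : α ∈ I then l ⟨α, h⟩ else 0)
          (Function.Embedding.subtype _ a : σ →₀ ℕ) = l a := dif_pos h8
      rw [h9]
      rfl
    · intro A hA j hj hAj hB
      obtain ⟨a, ha, rfl⟩ := Finset.mem_map.1 hA
      obtain ⟨i, hi, hi1, hi2, hi3⟩ := hpriv a ⟨j, hj⟩ ⟨ha, by rw [hx]; exact hAj, by
        intro b hb hba
        rw [hx]
        apply hB _ (Finset.mem_map.2 ⟨b, hb, rfl⟩)
        intro h
        exact hba (Subtype.ext h)⟩
      refine ⟨i, i.2, fun h => hi (Subtype.ext h), by rw [hx] at hi2; exact hi2, ?_⟩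
      intro β hβ hβa
      obtain ⟨b, hb, rfl⟩ := Finset.mem_map.1 hβ
      have := hi3 b hb (fun h => hβa (by rw [h]))
      rw [hx] at this
      exact this
  · right
    obtain ⟨K', hK'⟩ : ∃ K' : Finset σ, K' = K.map (Function.Embedding.subtype _) := ⟨_, rfl⟩
    have hKT : K' ⊆ T := by
      intro j hj
      rw [hK'] at hj
      obtain ⟨a, -, rfl⟩ := Finset.mem_map.1 hj
      exact a.2
    have hcard : K'.card = K.card := by rw [hK', Finset.card_map]
    have hsum : ∀ α ∈ I, ∑ j ∈ K', α j ≤ 1 := by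
      intro α hα
      rw [hK', Finset.sum_map]
      have := hK1 ⟨α, hα⟩
      simp only [hx] at this
      exact this
    have hstab : Pool.Agent.GEN.Stab I K' := by
      refine ⟨?_, hsum, ?_⟩
      · rw [hK']
        exact hK0.map
      · intro j hj
        rw [hK'] at hj
        obtain ⟨k, hk, rfl⟩ := Finset.mem_map.1 hj
        obtain ⟨a, ha⟩ := hK2 k hk
        rw [hx] at ha
        exact ⟨a, a.2, ha⟩
    refine ⟨K', hKT, ⟨hstab, ?_⟩, ?_⟩
    swap
    · intro P Q hP hQ hB
      have hPT : P ⊆ T := hP.trans hKT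
      have key : ∀ R : Finset σ, R ⊆ T → ∃ R₁ : Finset T, R₁.map (Function.Embedding.subtype _) = R := by
        intro R hR
        refine ⟨R.subtype (fun x => x ∈ T), ?_⟩
        rw [Finset.subtype_map]
        exact Finset.filter_true_of_mem (fun x hx => hR hx)
      obtain ⟨P₁, hP₁⟩ := key P hPT
      obtain ⟨Q₁, hQ₁⟩ := key Q hQ
      have hPK : P₁ ⊆ K := by
        rw [← hP₁, hK', Finset.map_subset_map] at hP
        exact hP
      apply hK4 P₁ Q₁ hPK
      refine ⟨?_, ?_, ?_, ?_⟩
      · have h1 := hB.ne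
        rwa [← hP₁, Finset.map_nonempty] at h1
      · have h1 := hB.disj
        rwa [← hP₁, ← hQ₁, Finset.disjoint_map] at h1
      · have h1 := hB.card
        rwa [← hP₁, ← hQ₁, Finset.card_map, Finset.card_map] at h1
      · intro a _
        rcases hB.once a a.2 with ⟨h1, h2⟩ | h1
        · left
          rw [← hP₁, Finset.sum_map] at h1
          rw [← hQ₁, Finset.sum_map] at h2
          refine ⟨?_, ?_⟩
          · rw [← h1]
            exact Finset.sum_congr rfl fun p _ => hx p a
          · rw [← h2]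
            exact Finset.sum_congr rfl fun p _ => hx p a
        · right
          refine ⟨fun p hp => ?_, fun q hq => ?_⟩
          · rw [hx]
            exact h1 p (Or.inl (by rw [← hP₁]; exact Finset.mem_map.2 ⟨p, hp, rfl⟩))
          · rw [hx]
            exact h1 q (Or.inr (by rw [← hQ₁]; exact Finset.mem_map.2 ⟨q, hq, rfl⟩))
    have h1 := kvk σ I K' hstab
    obtain ⟨E, hE⟩ : ∃ E : Finset I, E = D.EK univ K := ⟨_, rfl⟩
    rw [← hE] at hK3
    have hmemE : ∀ a : I, a ∈ E ↔ ∃ k ∈ K, (a : σ →₀ ℕ) k ≠ 0 := by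
      intro a
      rw [hE]
      unfold Dat.EK
      rw [Finset.mem_filter]
      simp only [hx, Finset.mem_univ, true_and]
    -- the linear map
    obtain ⟨Φ, hΦ⟩ : ∃ Φ : (E → ℚ) →ₗ[ℚ] (σ → ℚ), Φ =
        Fintype.linearCombination ℚ (fun (a : E) (i : σ) => ((((a : I) : σ →₀ ℕ) i : ℕ) : ℚ)) :=
      ⟨_, rfl⟩
    have hrange : LinearMap.range Φ = Submodule.span ℚ {v : σ → ℚ | ∃ α ∈ I,
        (∃ j ∈ K', α j = 1) ∧ v = fun i => (α i : ℚ)} := by
      rw [hΦ, Fintype.range_linearCombination]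
      congr 1
      ext v
      constructor
      · rintro ⟨a, rfl⟩
        obtain ⟨k, hk, hka⟩ := (hmemE a).1 a.2
        refine ⟨(a : I), (a : I).2, ⟨k, ?_, ?_⟩, rfl⟩
        · rw [hK']
          exact Finset.mem_map.2 ⟨k, hk, rfl⟩
        · have h2 := hsum (a : I) (a : I).2
          have h3 : ((a : I) : σ →₀ ℕ) k ≤ ∑ j ∈ K', ((a : I) : σ →₀ ℕ) j :=
            Finset.single_le_sum (f := fun j => ((a : I) : σ →₀ ℕ) j) (fun _ _ => Nat.zero_le _)
              (by rw [hK']; exact Finset.mem_map.2 ⟨k, hk, rfl⟩)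
          omega
      · rintro ⟨α, hα, ⟨j, hj, hj1⟩, rfl⟩
        rw [hK'] at hj
        obtain ⟨k, hk, rfl⟩ := Finset.mem_map.1 hj
        have : (⟨α, hα⟩ : I) ∈ E := (hmemE _).2 ⟨k, hk, by
          have h9 : α (k : σ) = 1 := hj1
          show α (k : σ) ≠ 0
          omega⟩
        exact ⟨⟨⟨α, hα⟩, this⟩, rfl⟩
    -- the kernel
    have hker : D.nul E ≤ Module.finrank ℚ (LinearMap.ker Φ) := by
      let res : (I → ℚ) →ₗ[ℚ] (E → ℚ) := LinearMap.funLeft ℚ ℚ (fun a : E => (a : I))
      have hres : ∀ ρ ∈ D.R E, res ρ ∈ LinearMap.ker Φ := by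
        intro ρ hρ
        rw [LinearMap.mem_ker, hΦ, Fintype.linearCombination_apply]
        funext i
        rw [Finset.sum_apply]
        have h2 := (hrel _).1 hρ.1 i
        have h3 : ∑ a : I, ρ a * (((a : σ →₀ ℕ) i : ℕ) : ℚ) =
            ∑ a ∈ E, ρ a * (((a : σ →₀ ℕ) i : ℕ) : ℚ) := by
          symm
          apply Finset.sum_subset (Finset.subset_univ E)
          intro a _ ha
          rw [hρ.2 a ha, zero_mul]
        rw [h3, ← Finset.sum_coe_sort E (fun a : I => ρ a * (((a : σ →₀ ℕ) i : ℕ) : ℚ))] at h2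
        rw [Pi.zero_apply, ← h2]
        refine Finset.sum_congr rfl fun a _ => ?_
        rfl
      have hinj : Function.Injective (res.restrict hres) := by
        rw [injective_iff_map_eq_zero]
        intro ρ hρ
        apply Subtype.ext
        funext a
        by_cases ha : a ∈ E
        · have h4 : (((res.restrict hres) ρ : LinearMap.ker Φ) : E → ℚ) ⟨a, ha⟩ = 0 := by
            rw [hρ]
            rfl
          exact h4
        · exact ρ.2.2 a ha
      exact LinearMap.finrank_le_finrank_of_injective hinj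
    have hrn := LinearMap.finrank_range_add_finrank_ker Φ
    rw [hrange, Module.finrank_fintype_fun_eq_card, Fintype.card_coe] at hrn
    omega

end Pool.Agent.KTB.H92
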